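import Pool.Agent.H189R2.Lev.Core

/-! Expected number of `k`-edges of independent random points with bounded strip densities. -/

set_option autoImplicit false

namespace Pool.Agent.H189R2.Lev

open Finset MeasureTheory Filter
open scoped ENNReal Topology

/-- twice the signed area of the triangle `p q r` -/
def orient (p q r : ℝ × ℝ) : ℝ := (q.1 - p.1) * (r.2 - p.2) - (q.2 - p.2) * (r.1 - p.1)

/-- `P i ≠ P j` and the directed line from `P i` to `P j` has exactly `k` of the points strictly on
its left and exactly `n - 2 - k` of them strictly on its right -/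
def KEdge {n : ℕ} (P : Fin n → ℝ × ℝ) (k : ℕ) (i j : Fin n) : Prop :=
  P i ≠ P j ∧ {l | 0 < orient (P i) (P j) (P l)}.ncard = k ∧
    {l | orient (P i) (P j) (P l) < 0}.ncard + k + 2 = n

theorem exists_angle {x y : ℝ} (h : ¬ (x = 0 ∧ y = 0)) :
    ∃ r > 0, ∃ θ ∈ Set.Ico 0 (2 * Real.pi), x = r * Real.cos θ ∧ y = r * Real.sin θ := by
  set z : ℂ := ⟨x, y⟩ with hz
  have hz0 : z ≠ 0 := by
    intro h0
    apply h
    have h1 := congrArg Complex.re h0
    have h2 := congrArg Complex.im h0
    simpa [hz] using And.intro h1 h2
  have hx : x = ‖z‖ * Real.cos z.arg := by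
    rw [Complex.norm_mul_cos_arg]
  have hy : y = ‖z‖ * Real.sin z.arg := by
    rw [Complex.norm_mul_sin_arg]
  have h1 := Complex.neg_pi_lt_arg z
  have h2 := Complex.arg_le_pi z
  refine ⟨‖z‖, norm_pos_iff.mpr hz0, ?_⟩
  by_cases h3 : 0 ≤ z.arg
  · exact ⟨z.arg, ⟨h3, by linarith [Real.pi_pos]⟩, hx, hy⟩
  · push Not at h3
    refine ⟨z.arg + 2 * Real.pi, ⟨by linarith, by linarith⟩, ?_, ?_⟩
    · rw [Real.cos_add_two_pi]; exact hx
    · rw [Real.sin_add_two_pi]; exact hy

theorem rot_lip {p : ℝ × ℝ} {R : ℝ} (hR : 0 ≤ R) (hp : p.1 ^ 2 + p.2 ^ 2 ≤ R ^ 2) (θ θ' : ℝ) :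
    |(p.1 * Real.cos θ + p.2 * Real.sin θ) - (p.1 * Real.cos θ' + p.2 * Real.sin θ')| ≤
      R * |θ - θ'| := by
  have h1 : (Real.cos θ - Real.cos θ') ^ 2 + (Real.sin θ - Real.sin θ') ^ 2 ≤ |θ - θ'| ^ 2 := by
    have h2 := Real.one_sub_sq_div_two_le_cos (x := θ - θ')
    rw [Real.cos_sub] at h2
    rw [sq_abs]
    nlinarith [Real.sin_sq_add_cos_sq θ, Real.sin_sq_add_cos_sq θ']
  apply abs_le_of_sq_le_sq _ (by positivity)
  have h3 : ((p.1 * Real.cos θ + p.2 * Real.sin θ) - (p.1 * Real.cos θ' + p.2 * Real.sin θ')) ^ 2 ≤
      (p.1 ^ 2 + p.2 ^ 2) * ((Real.cos θ - Real.cos θ') ^ 2 + (Real.sin θ - Real.sin θ') ^ 2) := by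
    nlinarith [sq_nonneg (p.1 * (Real.sin θ - Real.sin θ') - p.2 * (Real.cos θ - Real.cos θ'))]
  calc _ ≤ _ := h3
    _ ≤ R ^ 2 * |θ - θ'| ^ 2 := by
        apply mul_le_mul hp h1 (by positivity) (by positivity)
    _ = (R * |θ - θ'|) ^ 2 := by ring

theorem inner {n k : ℕ} (hk : k + 2 ≤ n) {R D : ℝ} (hR : 0 ≤ R) (P : Fin n → ℝ × ℝ)
    (hP : ∀ l, (P l).1 ^ 2 + (P l).2 ^ 2 ≤ R ^ 2) (j : Fin n) (ν : Measure (ℝ × ℝ))
    (hD : ∀ θ s ε : ℝ, 0 ≤ ε →
      ν {p | |p.1 * Real.cos θ + p.2 * Real.sin θ - s| ≤ ε} ≤ ENNReal.ofReal (2 * D * ε))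
    (hν : ∀ᵐ p ∂ν, p.1 ^ 2 + p.2 ^ 2 ≤ R ^ 2) :
    ∫⁻ p, ({i | i ≠ j ∧ KEdge (Function.update P j p) k i j}.ncard : ℝ≥0∞) ∂ν ≤
      ENNReal.ofReal (8 * Real.pi * D * R) := by
  classical
  have hpi := Real.pi_pos
  set S : Finset (Fin n) := univ.erase j with hS
  have hScard : S.card = n - 1 := by rw [hS, card_erase_of_mem (mem_univ j)]; simp
  have hstat : ∀ m r : ℕ, ∃ s : ℝ,
      (S.filter (fun l => s < (P l).1 * Real.cos (2 * Real.pi * r / m) +
        (P l).2 * Real.sin (2 * Real.pi * r / m))).card ≤ k ∧
      k < (S.filter (fun l => s ≤ (P l).1 * Real.cos (2 * Real.pi * r / m) +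
        (P l).2 * Real.sin (2 * Real.pi * r / m))).card :=
    fun m r => exists_stat S _ (by omega)
  choose s hs1 hs2 using hstat
  set A : ℕ → ℕ → Set (ℝ × ℝ) := fun m r =>
    {p | |p.1 * Real.cos (2 * Real.pi * r / m) + p.2 * Real.sin (2 * Real.pi * r / m) - s m r| ≤
      4 * Real.pi * R / m} with hA
  have hAm : ∀ m r, MeasurableSet (A m r) := by
    intro m r
    apply measurableSet_le _ measurable_const
    fun_prop
  have hGle : ∀ᵐ p ∂ν, ({i | i ≠ j ∧ KEdge (Function.update P j p) k i j}.ncard : ℝ≥0∞) ≤
      liminf (fun m => ∑ r ∈ range m, (A m r).indicator 1 p) atTop := by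
    filter_upwards [hν] with p hp
    set T : Finset (Fin n) :=
      univ.filter (fun i => i ≠ j ∧ KEdge (Function.update P j p) k i j) with hT
    have hTn : {i | i ≠ j ∧ KEdge (Function.update P j p) k i j}.ncard = T.card := by
      rw [← Set.ncard_coe_finset]
      congr 1
      ext i
      simp [hT]
    rw [hTn]
    -- the angles
    have hang : ∀ i, ∃ θ : ℝ, i ∈ T → θ ∈ Set.Ico 0 (2 * Real.pi) ∧
        ∃ r > 0, ∀ l, orient (P i) p (Function.update P j p l) = r *
          (((Function.update P j p l).1 * Real.cos θ + (Function.update P j p l).2 * Real.sin θ) -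
            (p.1 * Real.cos θ + p.2 * Real.sin θ)) := by
      intro i
      by_cases hi : i ∈ T
      · obtain ⟨_, hij, hne, _, _⟩ := mem_filter.mp hi
        rw [Function.update_self, Function.update_of_ne hij] at hne
        obtain ⟨r, hr, θ, hθ, h1, h2⟩ := exists_angle (x := -(p.2 - (P i).2)) (y := p.1 - (P i).1)
          (fun h => hne (Prod.ext (by linarith [h.2]) (by linarith [h.1])))
        refine ⟨θ, fun _ => ⟨hθ, r, hr, fun l => ?_⟩⟩
        set q := Function.update P j p l
        unfold orient
        have h3 : r * ((q.1 * Real.cos θ + q.2 * Real.sin θ) -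
            (p.1 * Real.cos θ + p.2 * Real.sin θ)) =
            (r * Real.cos θ) * (q.1 - p.1) + (r * Real.sin θ) * (q.2 - p.2) := by ring
        rw [h3, ← h1, ← h2]
        ring
      · exact ⟨0, fun h => absurd h hi⟩
    choose θ hθ using hang
    have hinj : ∀ i ∈ T, ∀ i' ∈ T, θ i = θ i' → i = i' := by
      intro i hi i' hi' heq
      by_contra hne
      obtain ⟨_, r, hr, hor⟩ := hθ i hi
      obtain ⟨_, r', hr', hor'⟩ := hθ i' hi'
      obtain ⟨_, hij, hne1, hl, hrr⟩ := mem_filter.mp hi
      obtain ⟨_, hij', hne1', hl', hrr'⟩ := mem_filter.mp hi'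
      have hU : Function.update P j p i = P i := Function.update_of_ne hij _ _
      have hU' : Function.update P j p i' = P i' := Function.update_of_ne hij' _ _
      have hUj : Function.update P j p j = p := Function.update_self _ _ _
      rw [hU, hUj] at hne1 hl hrr
      rw [hU', hUj] at hne1' hl' hrr'
      have e1 := hor i
      rw [hU] at e1
      have e2 := hor' i'
      rw [hU'] at e2
      have e3 := hor i'
      rw [hU'] at e3
      have z1 : orient (P i) p (P i) = 0 := by unfold orient; ring
      have z2 : orient (P i') p (P i') = 0 := by unfold orient; ring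
      have z3 : orient (P i) p p = 0 := by unfold orient; ring
      rw [z2] at e2
      have f2 : ((P i').1 * Real.cos (θ i') + (P i').2 * Real.sin (θ i')) -
          (p.1 * Real.cos (θ i') + p.2 * Real.sin (θ i')) = 0 := by
        rcases mul_eq_zero.mp e2.symm with h | h
        · exact absurd h hr'.ne'
        · exact h
      rw [← heq] at f2
      rw [f2, mul_zero] at e3
      -- three points on the line
      set X := {l | 0 < orient (P i) p (Function.update P j p l)} with hX
      set Y := {l | orient (P i) p (Function.update P j p l) < 0} with hY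
      have hdis : Disjoint X Y := by
        rw [Set.disjoint_left]
        intro l h1 h2
        rw [hX, Set.mem_ofPred_eq] at h1
        rw [hY, Set.mem_ofPred_eq] at h2
        exact lt_asymm h1 h2
      have hsub : X ∪ Y ⊆ ((univ.erase i).erase j).erase i' := by
        intro l hl
        simp only [coe_erase, coe_univ, Set.mem_sdiff, Set.mem_univ, Set.mem_singleton_iff, true_and]
        refine ⟨⟨?_, ?_⟩, ?_⟩
        · rintro rfl
          rcases hl with h | h <;> simp only [hX, hY, Set.mem_ofPred_eq, hU, z1] at h <;>
            exact lt_irrefl _ h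
        · rintro rfl
          rcases hl with h | h <;> simp only [hX, hY, Set.mem_ofPred_eq, hUj, z3] at h <;>
            exact lt_irrefl _ h
        · rintro rfl
          rcases hl with h | h <;> simp only [hX, hY, Set.mem_ofPred_eq, hU', e3] at h <;>
            exact lt_irrefl _ h
      have hc := Set.ncard_le_ncard hsub (Set.toFinite _)
      rw [Set.ncard_union_eq hdis (Set.toFinite _) (Set.toFinite _), Set.ncard_coe_finset] at hc
      have c1 : ((univ.erase i).erase j : Finset (Fin n)).card = n - 2 := by
        rw [card_erase_of_mem (by simp [Ne.symm hij]), card_erase_of_mem (mem_univ i)]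
        simp
        omega
      have c2 : (((univ.erase i).erase j).erase i' : Finset (Fin n)).card = n - 3 := by
        rw [card_erase_of_mem (by simp [Ne.symm hne, hij']), c1]
        omega
      have hn3 : 0 < n - 2 := by
        rw [← c1, card_pos]
        exact ⟨i', by simp [Ne.symm hne, hij']⟩
      omega
    refine le_liminf_of_le (by isBoundedDefault) ?_
    filter_upwards [eventually_separated T θ (L := 2 * Real.pi) (by positivity) hinj,
      eventually_ge_atTop 1] with m hm hm1
    have hm0 : (0 : ℝ) < m := by exact_mod_cast hm1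
    have key : ∀ i ∈ T, ∃ r ∈ range m, (r : ℤ) = ⌊θ i * m / (2 * Real.pi)⌋ ∧ p ∈ A m r := by
      intro i hi
      obtain ⟨⟨hθ0, hθ1⟩, r, hr, hor⟩ := hθ i hi
      obtain ⟨_, hij, hne1, hl, hrr⟩ := mem_filter.mp hi
      have hU : Function.update P j p i = P i := Function.update_of_ne hij _ _
      have hUj : Function.update P j p j = p := Function.update_self _ _ _
      rw [hU, hUj] at hne1 hl hrr
      set x := θ i * m / (2 * Real.pi) with hx
      have hx0 : 0 ≤ x := by positivity
      have hxm : x < m := by
        rw [hx, div_lt_iff₀ (by positivity)]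
        nlinarith
      refine ⟨⌊x⌋₊, ?_, ?_, ?_⟩
      · rw [mem_range]
        exact (Nat.floor_lt hx0).mpr hxm
      · rw [eq_comm, Int.floor_eq_iff]
        exact ⟨by exact_mod_cast Nat.floor_le hx0, by exact_mod_cast Nat.lt_floor_add_one x⟩
      · set q := ⌊x⌋₊ with hq
        have hq1 : (q : ℝ) ≤ x := Nat.floor_le hx0
        have hq2 : x < q + 1 := Nat.lt_floor_add_one x
        have hd : |θ i - 2 * Real.pi * q / m| ≤ 2 * Real.pi / m := by
          have h1 : θ i = 2 * Real.pi * x / m := by
            rw [hx]; field_simp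
          rw [h1, ← sub_div, ← mul_sub, abs_div, abs_mul, abs_of_pos hm0,
            abs_of_pos (by positivity : (0 : ℝ) < 2 * Real.pi)]
          apply div_le_div_of_nonneg_right _ hm0.le
          have : |x - q| ≤ 1 := by rw [abs_le]; constructor <;> linarith
          nlinarith
        have hlip : ∀ v : ℝ × ℝ, v.1 ^ 2 + v.2 ^ 2 ≤ R ^ 2 →
            |(v.1 * Real.cos (θ i) + v.2 * Real.sin (θ i)) -
              (v.1 * Real.cos (2 * Real.pi * q / m) + v.2 * Real.sin (2 * Real.pi * q / m))| ≤
              R * (2 * Real.pi / m) := by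
          intro v hv
          exact (rot_lip hR hv _ _).trans (mul_le_mul_of_nonneg_left hd hR)
        have hnear := near S (a := fun l => (P l).1 * Real.cos (θ i) + (P l).2 * Real.sin (θ i))
          (b := p.1 * Real.cos (θ i) + p.2 * Real.sin (θ i)) (hs1 m q) (hs2 m q)
          (b' := p.1 * Real.cos (2 * Real.pi * q / m) + p.2 * Real.sin (2 * Real.pi * q / m))
          (ε₁ := R * (2 * Real.pi / m)) (ε₂ := R * (2 * Real.pi / m)) ?_ ?_
          (fun l _ => hlip _ (hP l)) (hlip p hp)
        · change |_ - s m q| ≤ _
          refine hnear.trans (le_of_eq ?_)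
          ring
        · -- left side
          have : (S.filter (fun l => p.1 * Real.cos (θ i) + p.2 * Real.sin (θ i) <
              (P l).1 * Real.cos (θ i) + (P l).2 * Real.sin (θ i))).card = k := by
            rw [← hl, ← Set.ncard_coe_finset]
            congr 1
            ext l
            simp only [hS, coe_filter, mem_erase, mem_univ, and_true, Set.mem_ofPred_eq]
            by_cases hlj : l = j
            · subst hlj
              have z : orient (P i) p p = 0 := by unfold orient; ring
              rw [hUj, z]
              simp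
            · rw [hor l, Function.update_of_ne hlj]
              constructor
              · rintro ⟨_, h⟩
                exact mul_pos hr (by linarith)
              · intro h
                exact ⟨hlj, by linarith [(mul_pos_iff_of_pos_left hr).mp h]⟩
          omega
        · have hlow : (S.filter (fun l => (P l).1 * Real.cos (θ i) + (P l).2 * Real.sin (θ i) <
              p.1 * Real.cos (θ i) + p.2 * Real.sin (θ i))).card =
              {l | orient (P i) p (Function.update P j p l) < 0}.ncard := by
            rw [← Set.ncard_coe_finset]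
            congr 1
            ext l
            simp only [hS, coe_filter, mem_erase, mem_univ, and_true, Set.mem_ofPred_eq]
            by_cases hlj : l = j
            · subst hlj
              have z : orient (P i) p p = 0 := by unfold orient; ring
              rw [hUj, z]
              simp
            · rw [hor l, Function.update_of_ne hlj]
              constructor
              · rintro ⟨_, h⟩
                exact mul_neg_of_pos_of_neg hr (by linarith)
              · intro h
                refine ⟨hlj, ?_⟩
                by_contra hcon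
                push Not at hcon
                have := mul_nonneg hr.le (sub_nonneg.mpr hcon)
                linarith
          have hsplit := Finset.card_filter_add_card_filter_not (s := S)
            (fun l => p.1 * Real.cos (θ i) + p.2 * Real.sin (θ i) ≤
              (P l).1 * Real.cos (θ i) + (P l).2 * Real.sin (θ i))
          simp only [not_le] at hsplit
          omega
    choose! ρ hρ1 hρ2 hρ3 using key
    have hρinj : Set.InjOn ρ T := by
      intro i hi i' hi' h
      apply hm i hi i' hi'
      rw [← hρ2 i hi, ← hρ2 i' hi', h]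
    calc (T.card : ℝ≥0∞) = ((T.image ρ).card : ℝ≥0∞) := by rw [card_image_of_injOn hρinj]
      _ = ∑ r ∈ T.image ρ, (A m r).indicator 1 p := by
          rw [sum_congr rfl (g := fun _ => (1 : ℝ≥0∞))]
          · simp
          · intro r hr
            obtain ⟨i, hi, rfl⟩ := mem_image.mp hr
            rw [Set.indicator_of_mem (hρ3 i hi)]
            rfl
      _ ≤ ∑ r ∈ range m, (A m r).indicator 1 p := by
          apply sum_le_sum_of_subset
          intro r hr
          obtain ⟨i, hi, rfl⟩ := mem_image.mp hr
          exact hρ1 i hi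
  calc ∫⁻ p, ({i | i ≠ j ∧ KEdge (Function.update P j p) k i j}.ncard : ℝ≥0∞) ∂ν
      ≤ ∫⁻ p, liminf (fun m => ∑ r ∈ range m, (A m r).indicator 1 p) atTop ∂ν :=
        lintegral_mono_ae hGle
    _ ≤ liminf (fun m => ∫⁻ p, ∑ r ∈ range m, (A m r).indicator 1 p ∂ν) atTop :=
        lintegral_liminf_le (fun m => Finset.measurable_sum _
          (fun r _ => measurable_one.indicator (hAm m r)))
    _ ≤ liminf (fun _ : ℕ => ENNReal.ofReal (8 * Real.pi * D * R)) atTop := by
        refine liminf_le_liminf ?_
        filter_upwards [eventually_ge_atTop 1] with m hm1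
        have hm0 : (0 : ℝ) < m := by exact_mod_cast hm1
        rw [lintegral_finsetSum _ (fun r _ => measurable_one.indicator (hAm m r))]
        calc ∑ r ∈ range m, ∫⁻ p, (A m r).indicator 1 p ∂ν
            ≤ ∑ _r ∈ range m, ENNReal.ofReal (2 * D * (4 * Real.pi * R / m)) := by
              apply sum_le_sum
              intro r _
              rw [lintegral_indicator_one (hAm m r)]
              exact hD _ _ _ (by positivity)
          _ = ENNReal.ofReal (8 * Real.pi * D * R) := by
              rw [sum_const, card_range, nsmul_eq_mul, ← ENNReal.ofReal_natCast,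
                ← ENNReal.ofReal_mul (by positivity)]
              congr 1
              field_simp
              ring
    _ = _ := liminf_const _

end Pool.Agent.H189R2.Lev
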