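import Mathlib

/-! Order statistics, cells, and replacement of one coordinate of a product measure. -/

set_option autoImplicit false

namespace Pool.Agent.H189R2.Lev

open Finset MeasureTheory Filter
open scoped ENNReal Topology

/-- order statistic -/
theorem exists_stat {ι : Type*} (S : Finset ι) (a : ι → ℝ) {k : ℕ} (hk : k < S.card) :
    ∃ s : ℝ, (S.filter (fun l => s < a l)).card ≤ k ∧ k < (S.filter (fun l => s ≤ a l)).card := by
  classical
  set T := S.filter (fun l => k < (S.filter (fun l' => a l ≤ a l')).card) with hT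
  have hTne : T.Nonempty := by
    obtain ⟨l, hl, hmin⟩ := S.exists_min_image a (card_pos.mp (by omega))
    refine ⟨l, ?_⟩
    rw [hT, mem_filter]
    refine ⟨hl, ?_⟩
    rw [filter_true_of_mem (fun l' hl' => hmin l' hl')]
    exact hk
  obtain ⟨l, hl, hmax⟩ := T.exists_max_image a hTne
  have hl' := (mem_filter.mp hl).2
  refine ⟨a l, ?_, hl'⟩
  by_contra hcon
  push Not at hcon
  obtain ⟨l₂, hl₂, hmin⟩ := (S.filter (fun l' => a l < a l')).exists_min_image a
    (card_pos.mp (by omega))
  have hl₂' := mem_filter.mp hl₂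
  have hsub : S.filter (fun l' => a l < a l') ⊆ S.filter (fun l' => a l₂ ≤ a l') := by
    intro l' h
    have h' := mem_filter.mp h
    rw [mem_filter]
    exact ⟨h'.1, hmin l' h⟩
  have hmem : l₂ ∈ T := by
    rw [hT, mem_filter]
    exact ⟨hl₂'.1, lt_of_lt_of_le hcon (card_le_card hsub)⟩
  have := hmax l₂ hmem
  linarith [hl₂'.2]

theorem near {ι : Type*} (S : Finset ι) {a a' : ι → ℝ} {k : ℕ} {s b b' ε₁ ε₂ : ℝ}
    (hs1 : (S.filter (fun l => s < a' l)).card ≤ k) (hs2 : k < (S.filter (fun l => s ≤ a' l)).card)
    (h1 : (S.filter (fun l => b < a l)).card ≤ k) (h2 : k < (S.filter (fun l => b ≤ a l)).card)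
    (ha : ∀ l ∈ S, |a l - a' l| ≤ ε₁) (hb : |b - b'| ≤ ε₂) : |b' - s| ≤ ε₁ + ε₂ := by
  have hb' := abs_le.mp hb
  rw [abs_le]
  constructor
  · by_contra hcon
    push Not at hcon
    have hsub : S.filter (fun l => s ≤ a' l) ⊆ S.filter (fun l => b < a l) := by
      intro l hl
      have hl' := mem_filter.mp hl
      have := abs_le.mp (ha l hl'.1)
      rw [mem_filter]
      exact ⟨hl'.1, by linarith [hl'.2, this.1, this.2]⟩
    have := card_le_card hsub
    omega
  · by_contra hcon
    push Not at hcon
    have hsub : S.filter (fun l => b ≤ a l) ⊆ S.filter (fun l => s < a' l) := by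
      intro l hl
      have hl' := mem_filter.mp hl
      have := abs_le.mp (ha l hl'.1)
      rw [mem_filter]
      exact ⟨hl'.1, by linarith [hl'.2, this.1, this.2]⟩
    have := card_le_card hsub
    omega

theorem pi_update {n : ℕ} {α : Type*} [MeasurableSpace α] (ν : Fin n → Measure α)
    [∀ i, IsProbabilityMeasure (ν i)] (i : Fin n) {f : (Fin n → α) → ℝ≥0∞} (hf : Measurable f) :
    ∫⁻ x, f x ∂Measure.pi ν = ∫⁻ x, ∫⁻ y, f (Function.update x i y) ∂ν i ∂Measure.pi ν := by
  have hmeas : Measurable (fun p : (Fin n → α) × α => Function.update p.1 i p.2) := by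
    rw [measurable_pi_iff]
    intro j
    by_cases hj : j = i
    · subst hj
      simpa using measurable_snd
    · simp only [Function.update_of_ne hj]
      exact (measurable_pi_apply j).comp measurable_fst
  have h : Measure.pi ν =
      ((Measure.pi ν).prod (ν i)).map (fun p => Function.update p.1 i p.2) := by
    apply Measure.pi_eq
    intro s hs
    rw [Measure.map_apply hmeas (MeasurableSet.univ_pi hs)]
    have : (fun p : (Fin n → α) × α => Function.update p.1 i p.2) ⁻¹' (Set.univ.pi s) =
        (Set.univ.pi (Function.update s i Set.univ)) ×ˢ (s i) := by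
      ext ⟨x, y⟩
      simp only [Set.mem_preimage, Set.mem_univ_pi, Set.mem_prod]
      constructor
      · intro h
        refine ⟨fun j => ?_, by simpa using h i⟩
        by_cases hj : j = i
        · subst hj; simp
        · have := h j
          simpa [Function.update_of_ne hj] using this
      · rintro ⟨h1, h2⟩ j
        by_cases hj : j = i
        · subst hj; simpa using h2
        · have := h1 j
          simpa [Function.update_of_ne hj] using this
    rw [this, Measure.prod_prod, Measure.pi_pi,
      ← Finset.prod_erase_mul univ (fun j => ν j (Function.update s i Set.univ j)) (mem_univ i),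
      ← Finset.prod_erase_mul univ (fun j => ν j (s j)) (mem_univ i)]
    rw [Function.update_self, measure_univ, mul_one]
    congr 1
    apply prod_congr rfl
    intro j hj
    rw [Function.update_of_ne (ne_of_mem_erase hj)]
  conv_lhs => rw [h]
  rw [lintegral_map hf hmeas]
  exact lintegral_prod (fun p : (Fin n → α) × α => f (Function.update p.1 i p.2))
    (hf.comp hmeas).aemeasurable

/-- distinct points of `[0, L)` are eventually separated by the mesh `L / m` -/
theorem eventually_separated {ι : Type*} (T : Finset ι) (θ : ι → ℝ) {L : ℝ} (hL : 0 < L)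
    (hinj : ∀ i ∈ T, ∀ j ∈ T, θ i = θ j → i = j) :
    ∀ᶠ m : ℕ in atTop, ∀ i ∈ T, ∀ j ∈ T, ⌊θ i * m / L⌋ = ⌊θ j * m / L⌋ → i = j := by
  rw [Filter.eventually_all_finset]
  intro i hi
  rw [Filter.eventually_all_finset]
  intro j hj
  by_cases hij : θ i = θ j
  · exact Eventually.of_forall (fun m _ => hinj i hi j hj hij)
  · have hpos : 0 < |θ i - θ j| := abs_pos.mpr (sub_ne_zero.mpr hij)
    obtain ⟨N, hN⟩ := exists_nat_gt (L / |θ i - θ j|)
    filter_upwards [eventually_ge_atTop N] with m hm heq
    exfalso
    have h1 : (N : ℝ) ≤ m := by exact_mod_cast hm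
    have h2 : |θ i * m / L - θ j * m / L| < 1 := by
      have := Int.abs_sub_lt_one_of_floor_eq_floor heq
      exact this
    have h3 : θ i * m / L - θ j * m / L = (θ i - θ j) * m / L := by ring
    have hm0 : |(m : ℝ)| = m := abs_of_nonneg (Nat.cast_nonneg m)
    rw [h3, abs_div, abs_mul, abs_of_pos hL, hm0, div_lt_one hL] at h2
    rw [div_lt_iff₀ hpos] at hN
    nlinarith

end Pool.Agent.H189R2.Lev
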