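import Pool.Agent.H189R2.Lev.Core

/-! Crossings of `n` lines `y = a l * x + B l` with exactly `k` lines below: the inner estimate. -/

set_option autoImplicit false

namespace Pool.Agent.H189R2.Lev

open Finset MeasureTheory Filter
open scoped ENNReal Topology

/-- height of line `l` above `x` -/
def ht {n : ℕ} (a B : Fin n → ℝ) (l : Fin n) (x : ℝ) : ℝ := a l * x + B l

/-- abscissa of the crossing of the lines `i` and `j` (meaningful for `a i ≠ a j`) -/
noncomputable def cr {n : ℕ} (a B : Fin n → ℝ) (i j : Fin n) : ℝ := (B j - B i) / (a i - a j)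

/-- lines `i`, `j` cross at a point of abscissa `≥ 0` having exactly `k` lines strictly below and
exactly `n - 2 - k` strictly above -/
def PosV {n : ℕ} (a B : Fin n → ℝ) (k : ℕ) (i j : Fin n) : Prop :=
  a i ≠ a j ∧ 0 ≤ cr a B i j ∧ {l | ht a B l (cr a B i j) < ht a B i (cr a B i j)}.ncard = k ∧
    {l | ht a B i (cr a B i j) < ht a B l (cr a B i j)}.ncard + k + 2 = n

theorem ht_cr {n : ℕ} {a B : Fin n → ℝ} {i j : Fin n} (h : a i ≠ a j) :
    ht a B j (cr a B i j) = ht a B i (cr a B i j) := by
  have h' : a i - a j ≠ 0 := sub_ne_zero.mpr h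
  unfold ht cr
  field_simp
  ring

theorem cr_symm {n : ℕ} (a B : Fin n → ℝ) (i j : Fin n) : cr a B i j = cr a B j i := by
  unfold cr
  rw [← neg_sub (B i) (B j), ← neg_sub (a j) (a i), neg_div_neg_eq]

theorem PosV.symm {n : ℕ} {a B : Fin n → ℝ} {k : ℕ} {i j : Fin n} (h : PosV a B k i j) :
    PosV a B k j i := by
  obtain ⟨h1, h2, h3, h4⟩ := h
  have h5 := ht_cr (B := B) h1
  rw [cr_symm] at h2 h3 h4 h5
  refine ⟨h1.symm, h2, ?_, ?_⟩
  · rw [h5]; exact h3
  · rw [h5]; exact h4

theorem cr_bound {n k : ℕ} {M : ℝ} {a B : Fin n → ℝ} (hB : ∀ l, |B l| ≤ M) {α : ℝ}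
    (hα1 : (univ.filter (fun l => a l < α)).card ≤ k)
    (hα2 : k < (univ.filter (fun l => a l ≤ α)).card) {i j : Fin n} (h : PosV a B k i j) :
    |a i - α| * cr a B i j ≤ 2 * M := by
  classical
  obtain ⟨h1, h2, h3, h4⟩ := h
  have h5 := ht_cr (B := B) h1
  set x := cr a B i j with hx
  have hij : i ≠ j := fun h => h1 (by rw [h])
  have c1 : (univ.filter (fun l => -ht a B i x < -ht a B l x)).card = k := by
    rw [← h3, ← Set.ncard_coe_finset]
    congr 1
    ext l
    simp
  have c2 : k < (univ.filter (fun l => -ht a B i x ≤ -ht a B l x)).card := by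
    have hsub : insert i (univ.filter (fun l => -ht a B i x < -ht a B l x)) ⊆
        univ.filter (fun l => -ht a B i x ≤ -ht a B l x) := by
      intro l hl
      rcases mem_insert.mp hl with rfl | hl
      · simp
      · rw [mem_filter] at hl ⊢
        exact ⟨hl.1, hl.2.le⟩
    have := card_le_card hsub
    rw [card_insert_of_notMem (by simp), c1] at this
    omega
  have c3 : (univ.filter (fun l => -(α * x) < -(a l * x))).card ≤ k := by
    refine le_trans (card_le_card ?_) hα1
    intro l hl
    rw [mem_filter] at hl ⊢
    refine ⟨hl.1, ?_⟩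
    by_contra hcon
    push Not at hcon
    have := mul_le_mul_of_nonneg_right hcon h2
    linarith [hl.2]
  have c4 : k < (univ.filter (fun l => -(α * x) ≤ -(a l * x))).card := by
    refine lt_of_lt_of_le hα2 (card_le_card ?_)
    intro l hl
    rw [mem_filter] at hl ⊢
    refine ⟨hl.1, ?_⟩
    have := mul_le_mul_of_nonneg_right hl.2 h2
    linarith
  have h6 := near univ (a := fun l => -ht a B l x) (a' := fun l => -(a l * x))
    (b := -ht a B i x) (b' := -ht a B i x) (ε₁ := M) (ε₂ := 0) c3 c4 c1.le c2
    (fun l _ => by
      have : -ht a B l x - -(a l * x) = -(B l) := by unfold ht; ring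
      rw [this, abs_neg]
      exact hB l) (by simp)
  have h7 := hB i
  have h8 : |(a i - α) * x| ≤ 2 * M := by
    have : (a i - α) * x = -(-ht a B i x - -(α * x)) - B i := by unfold ht; ring
    rw [this]
    calc |-(-ht a B i x - -(α * x)) - B i| ≤ |-(-ht a B i x - -(α * x))| + |B i| := abs_sub _ _
      _ ≤ 2 * M := by rw [abs_neg]; linarith
  rwa [abs_mul, abs_of_nonneg h2] at h8

theorem posV_inj {n k : ℕ} {a B : Fin n → ℝ} {i j j' : Fin n} (h : PosV a B k i j)
    (h' : PosV a B k i j') (hc : cr a B i j = cr a B i j') : j = j' := by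
  classical
  by_contra hne
  obtain ⟨h1, h2, h3, h4⟩ := h
  obtain ⟨h1', h2', h3', h4'⟩ := h'
  have h5 := ht_cr (B := B) h1
  have h5' := ht_cr (B := B) h1'
  rw [← hc] at h5'
  have hij : i ≠ j := fun h => h1 (by rw [h])
  have hij' : i ≠ j' := fun h => h1' (by rw [h])
  set x := cr a B i j with hx
  set X := {l | ht a B l x < ht a B i x} with hX
  set Y := {l | ht a B i x < ht a B l x} with hY
  have hdis : Disjoint X Y := by
    rw [Set.disjoint_left]
    intro l h1 h2
    rw [hX, Set.mem_ofPred_eq] at h1
    rw [hY, Set.mem_ofPred_eq] at h2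
    exact lt_asymm h1 h2
  have hsub : X ∪ Y ⊆ ((univ.erase i).erase j).erase j' := by
    intro l hl
    simp only [coe_erase, coe_univ, Set.mem_sdiff, Set.mem_univ, Set.mem_singleton_iff, true_and]
    refine ⟨⟨?_, ?_⟩, ?_⟩
    · rintro rfl
      rcases hl with h | h <;> simp [hX, hY] at h
    · rintro rfl
      rcases hl with h | h <;> simp only [hX, hY, Set.mem_ofPred_eq, h5] at h <;>
        exact lt_irrefl _ h
    · rintro rfl
      rcases hl with h | h <;> simp only [hX, hY, Set.mem_ofPred_eq, h5'] at h <;>
        exact lt_irrefl _ h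
  have hc := Set.ncard_le_ncard hsub (Set.toFinite _)
  rw [Set.ncard_union_eq hdis (Set.toFinite _) (Set.toFinite _), Set.ncard_coe_finset] at hc
  have c1 : ((univ.erase i).erase j : Finset (Fin n)).card = n - 2 := by
    rw [card_erase_of_mem (by simp [Ne.symm hij]), card_erase_of_mem (mem_univ i)]
    simp
    omega
  have c2 : (((univ.erase i).erase j).erase j' : Finset (Fin n)).card = n - 3 := by
    rw [card_erase_of_mem (by simp [Ne.symm hne, Ne.symm hij']), c1]
    omega
  have hn3 : 0 < n - 2 := by
    rw [← c1, card_pos]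
    exact ⟨j', by simp [Ne.symm hne, Ne.symm hij']⟩
  omega

/-- the conditional expectation over the intercept of line `i` -/
theorem inner_line {n k : ℕ} (hk : k + 2 ≤ n) {D M : ℝ} (a B : Fin n → ℝ) (hB : ∀ l, |B l| ≤ M)
    {α : ℝ} (hα1 : (univ.filter (fun l => a l < α)).card ≤ k)
    (hα2 : k < (univ.filter (fun l => a l ≤ α)).card) (i : Fin n) (ν : Measure ℝ)
    [IsProbabilityMeasure ν] (hν : ∀ s t : ℝ, s ≤ t → ν (Set.Icc s t) ≤ ENNReal.ofReal (D * (t - s)))
    (hM : ∀ᵐ b ∂ν, |b| ≤ M) :
    ∫⁻ b, ({j | PosV a (Function.update B i b) k i j ∧ |a j - α| ≤ |a i - α|}.ncard : ℝ≥0∞) ∂ν ≤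
      ENNReal.ofReal (4 * D * M) := by
  classical
  by_cases hu0 : a i = α
  · have : ∀ b, {j | PosV a (Function.update B i b) k i j ∧ |a j - α| ≤ |a i - α|} = ∅ := by
      intro b
      ext j
      simp only [Set.mem_ofPred_eq, Set.mem_empty_iff_false, iff_false]
      rintro ⟨h1, h2⟩
      rw [hu0, sub_self, abs_zero, abs_nonpos_iff, sub_eq_zero] at h2
      exact h1.1 (hu0.trans h2.symm)
    simp [this]
  set u := a i - α with hu
  have hune : u ≠ 0 := sub_ne_zero.mpr hu0
  have hupos : 0 < |u| := abs_pos.mpr hune
  have hMpos : 0 < M := by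
    have hM0 : 0 ≤ M := (abs_nonneg _).trans (hB i)
    rcases hM0.eq_or_lt with h | h
    · exfalso
      have h1 := hν 0 0 le_rfl
      simp only [sub_self, mul_zero, ENNReal.ofReal_zero] at h1
      have h2 : ∀ᵐ b ∂ν, b ∈ Set.Icc (0 : ℝ) 0 := by
        filter_upwards [hM] with b hb
        rw [← h, abs_nonpos_iff] at hb
        simp [hb]
      have h3 := (prob_compl_eq_zero_iff (μ := ν) (s := Set.Icc (0 : ℝ) 0) measurableSet_Icc).mp h2
      rw [h3] at h1
      exact absurd h1 (by norm_num)
    · exact h
  set X := 2 * M / |u| with hX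
  have hXpos : 0 < X := by positivity
  have huX : |u| * X = 2 * M := by
    rw [hX]; field_simp
  set S : Finset (Fin n) := univ.erase i with hS
  have hScard : S.card = n - 1 := by rw [hS, card_erase_of_mem (mem_univ i)]; simp
  have hstat : ∀ m r : ℕ, ∃ s : ℝ,
      (S.filter (fun l => s < -ht a B l (r * X / m))).card ≤ k ∧
      k < (S.filter (fun l => s ≤ -ht a B l (r * X / m))).card :=
    fun m r => exists_stat S _ (by omega)
  choose s hs1 hs2 using hstat
  set A : ℕ → ℕ → Set ℝ := fun m r =>
    {b | a i * (r * X / m) + b + s m r ∈ Set.uIcc (-(2 * u * (X / m))) 0} with hA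
  have hAm : ∀ m r, MeasurableSet (A m r) := by
    intro m r
    exact measurableSet_uIcc.preimage (by fun_prop)
  have hAν : ∀ m r, ν (A m r) ≤ ENNReal.ofReal (4 * D * M / m) := by
    intro m r
    have : A m r = Set.Icc (min (-(2 * u * (X / m))) 0 - a i * (r * X / m) - s m r)
        (max (-(2 * u * (X / m))) 0 - a i * (r * X / m) - s m r) := by
      ext b
      simp only [hA, Set.mem_ofPred_eq, Set.uIcc, Set.mem_Icc]
      constructor
      · rintro ⟨h1, h2⟩
        constructor <;> linarith
      · rintro ⟨h1, h2⟩
        constructor <;> linarith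
    rw [this]
    refine (hν _ _ (by linarith [min_le_max (a := -(2 * u * (X / m))) (b := (0 : ℝ))])).trans
      (le_of_eq ?_)
    congr 1
    have h1 : (max (-(2 * u * (X / m))) 0 - a i * (r * X / m) - s m r) -
        (min (-(2 * u * (X / m))) 0 - a i * (r * X / m) - s m r) =
        max (-(2 * u * (X / m))) 0 - min (-(2 * u * (X / m))) 0 := by ring
    rw [h1, max_sub_min_eq_abs, zero_sub, neg_neg, abs_mul, abs_mul,
      abs_of_pos (by norm_num : (0 : ℝ) < 2), abs_of_nonneg (by positivity : 0 ≤ X / m)]
    calc D * (2 * |u| * (X / m)) = 2 * D * (|u| * X) / m := by ring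
      _ = 4 * D * M / m := by rw [huX]; ring
  have hGle : ∀ᵐ b ∂ν,
      ({j | PosV a (Function.update B i b) k i j ∧ |a j - α| ≤ |a i - α|}.ncard : ℝ≥0∞) ≤
      liminf (fun m => ∑ r ∈ range (m + 1), (A m r).indicator 1 b) atTop := by
    filter_upwards [hM] with b hb
    set B' := Function.update B i b with hB'def
    have hB' : ∀ l, |B' l| ≤ M := by
      intro l
      by_cases hl : l = i
      · subst hl; rw [hB'def, Function.update_self]; exact hb
      · rw [hB'def, Function.update_of_ne hl]; exact hB l
    have hht : ∀ l ∈ S, ∀ x, ht a B' l x = ht a B l x := by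
      intro l hl x
      unfold ht
      rw [hB'def, Function.update_of_ne (mem_erase.mp hl).1]
    set T : Finset (Fin n) := univ.filter (fun j => PosV a B' k i j ∧ |a j - α| ≤ |a i - α|) with hT
    have hTn : {j | PosV a B' k i j ∧ |a j - α| ≤ |a i - α|}.ncard = T.card := by
      rw [← Set.ncard_coe_finset]
      congr 1
      ext i
      simp [hT]
    rw [hTn]
    set θ : Fin n → ℝ := fun j => cr a B' i j with hθ
    have hinj : ∀ j ∈ T, ∀ j' ∈ T, θ j = θ j' → j = j' := by
      intro j hj j' hj' heq
      exact posV_inj (mem_filter.mp hj).2.1 (mem_filter.mp hj').2.1 heq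
    have hθX : ∀ j ∈ T, θ j ≤ X := by
      intro j hj
      have := cr_bound hB' hα1 hα2 (mem_filter.mp hj).2.1
      rw [hX, le_div_iff₀ hupos]
      linarith
    -- eventual order
    have hlim : ∀ j ∈ T, Tendsto (fun m : ℕ => (⌊θ j / X * m⌋₊ : ℝ) * X / m) atTop (𝓝 (θ j)) := by
      intro j hj
      have h0 : 0 ≤ θ j / X := div_nonneg (mem_filter.mp hj).2.1.2.1 hXpos.le
      have h1 := (tendsto_nat_floor_mul_div_atTop (R := ℝ) h0).comp
        (tendsto_natCast_atTop_atTop (R := ℝ))
      have h2 := h1.mul_const X
      have h3 : θ j / X * X = θ j := by field_simp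
      rw [h3] at h2
      refine h2.congr (fun m => ?_)
      simp only [Function.comp]
      ring
    have hord : ∀ᶠ m : ℕ in atTop, ∀ j ∈ T, ∀ l ∈ (univ : Finset (Fin n)),
        (ht a B' l (θ j) < ht a B' j (θ j) →
          ht a B' l ((⌊θ j / X * m⌋₊ : ℝ) * X / m) < ht a B' j ((⌊θ j / X * m⌋₊ : ℝ) * X / m)) ∧
        (ht a B' j (θ j) < ht a B' l (θ j) →
          ht a B' j ((⌊θ j / X * m⌋₊ : ℝ) * X / m) < ht a B' l ((⌊θ j / X * m⌋₊ : ℝ) * X / m)) := by
      rw [Filter.eventually_all_finset]
      intro j hj
      rw [Filter.eventually_all_finset]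
      intro l _
      have hc : ∀ l, Tendsto (fun m : ℕ => ht a B' l ((⌊θ j / X * m⌋₊ : ℝ) * X / m)) atTop
          (𝓝 (ht a B' l (θ j))) := by
        intro l
        have hcont : Continuous (ht a B' l) := by unfold ht; fun_prop
        exact (hcont.tendsto _).comp (hlim j hj)
      rw [Filter.eventually_and]
      constructor
      · by_cases h : ht a B' l (θ j) < ht a B' j (θ j)
        · filter_upwards [(hc l).eventually_lt (hc j) h] with m hm _
          exact hm
        · exact Eventually.of_forall (fun m h' => absurd h' h)
      · by_cases h : ht a B' j (θ j) < ht a B' l (θ j)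
        · filter_upwards [(hc j).eventually_lt (hc l) h] with m hm _
          exact hm
        · exact Eventually.of_forall (fun m h' => absurd h' h)
    refine le_liminf_of_le (by isBoundedDefault) ?_
    filter_upwards [eventually_separated T θ hXpos hinj, eventually_ge_atTop 1, hord] with m hm hm1
      hmo
    have hm0 : (0 : ℝ) < m := by exact_mod_cast hm1
    have key : ∀ j ∈ T, ∃ r ∈ range (m + 1), (r : ℤ) = ⌊θ j * m / X⌋ ∧ b ∈ A m r := by
      intro j hj
      obtain ⟨⟨h1, h2, h3, h4⟩, h5⟩ := (mem_filter.mp hj).2
      have hij : i ≠ j := fun h => h1 (by rw [h])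
      have heq := ht_cr (B := B') h1
      change 0 ≤ θ j at h2
      change ht a B' j (θ j) = ht a B' i (θ j) at heq
      change {l | ht a B' l (θ j) < ht a B' i (θ j)}.ncard = k at h3
      change {l | ht a B' i (θ j) < ht a B' l (θ j)}.ncard + k + 2 = n at h4
      have hx0 : 0 ≤ θ j / X * m := by positivity
      have hxm : θ j / X * m ≤ m := by
        have : θ j / X ≤ 1 := (div_le_one hXpos).mpr (hθX j hj)
        nlinarith
      have hxe : θ j * m / X = θ j / X * m := by ring
      refine ⟨⌊θ j / X * m⌋₊, ?_, ?_, ?_⟩
      · rw [mem_range, Nat.lt_succ_iff]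
        exact Nat.floor_le_of_le hxm
      · rw [eq_comm, Int.floor_eq_iff, hxe]
        exact ⟨by exact_mod_cast Nat.floor_le hx0, by exact_mod_cast Nat.lt_floor_add_one _⟩
      · have hq1 := Nat.floor_le hx0
        have hq2 := Nat.lt_floor_add_one (θ j / X * m)
        have hmo' := hmo j hj
        set q := ⌊θ j / X * m⌋₊ with hq
        set x := (q : ℝ) * X / m with hx
        have hxle : x ≤ θ j := by
          rw [hx, div_le_iff₀ hm0]
          calc (q : ℝ) * X ≤ (θ j / X * m) * X := mul_le_mul_of_nonneg_right hq1 hXpos.le
            _ = θ j * m := by field_simp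
        have hxge : θ j - x ≤ X / m := by
          have h6 : θ j * m ≤ (q + 1) * X := by
            calc θ j * m = (θ j / X * m) * X := by field_simp
              _ ≤ (q + 1) * X := mul_le_mul_of_nonneg_right hq2.le hXpos.le
          have h7 : θ j ≤ (q + 1) * X / m := by
            rw [le_div_iff₀ hm0]; exact h6
          have h8 : ((q : ℝ) + 1) * X / m = x + X / m := by rw [hx]; ring
          linarith
        have hjS : j ∈ S := mem_erase.mpr ⟨hij.symm, mem_univ _⟩
        -- the statistic at `x` is the line `j`
        have hL : (S.filter (fun l => ht a B' l (θ j) < ht a B' j (θ j))).card = k := by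
          rw [← h3, ← Set.ncard_coe_finset]
          congr 1
          ext l
          simp only [hS, coe_filter, mem_erase, mem_univ, and_true, Set.mem_ofPred_eq]
          rw [heq]
          constructor
          · exact fun h => h.2
          · intro h
            refine ⟨?_, h⟩
            rintro rfl
            exact lt_irrefl _ h
        have hU : (S.filter (fun l => ht a B' j (θ j) < ht a B' l (θ j))).card + k + 2 = n := by
          have e : (S.filter (fun l => ht a B' j (θ j) < ht a B' l (θ j))).card =
              {l | ht a B' i (θ j) < ht a B' l (θ j)}.ncard := by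
            rw [← Set.ncard_coe_finset]
            congr 1
            ext l
            simp only [hS, coe_filter, mem_erase, mem_univ, and_true, Set.mem_ofPred_eq]
            rw [heq]
            constructor
            · exact fun h => h.2
            · intro h
              refine ⟨?_, h⟩
              rintro rfl
              exact lt_irrefl _ h
          omega
        have hb1 : (S.filter (fun l => -ht a B' j x < -ht a B l x)).card ≤ k := by
          have hsub : S.filter (fun l => -ht a B' j x < -ht a B l x) ⊆
              S \ insert j (S.filter (fun l => ht a B' j (θ j) < ht a B' l (θ j))) := by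
            intro l hl
            obtain ⟨hl1, hl2⟩ := mem_filter.mp hl
            rw [← hht l hl1] at hl2
            rw [Finset.mem_sdiff, mem_insert, mem_filter, not_or]
            refine ⟨hl1, ?_, ?_⟩
            · rintro rfl
              exact lt_irrefl _ hl2
            · rintro ⟨_, h⟩
              have := (hmo' l (mem_univ l)).2 h
              linarith
          have h6 := card_le_card hsub
          rw [card_sdiff_of_subset (by
            intro l hl
            rcases mem_insert.mp hl with rfl | hl
            · exact hjS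
            · exact (mem_filter.mp hl).1), card_insert_of_notMem (by simp), hScard] at h6
          omega
        have hb2 : k < (S.filter (fun l => -ht a B' j x ≤ -ht a B l x)).card := by
          have hsub : insert j (S.filter (fun l => ht a B' l (θ j) < ht a B' j (θ j))) ⊆
              S.filter (fun l => -ht a B' j x ≤ -ht a B l x) := by
            intro l hl
            rcases mem_insert.mp hl with rfl | hl
            · rw [mem_filter]
              exact ⟨hjS, by rw [hht _ hjS]⟩
            · obtain ⟨hl1, hl2⟩ := mem_filter.mp hl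
              rw [mem_filter]
              refine ⟨hl1, ?_⟩
              rw [← hht l hl1]
              have := (hmo' l (mem_univ l)).1 hl2
              linarith
          have h6 := card_le_card hsub
          rw [card_insert_of_notMem (by simp), hL] at h6
          omega
        have h6 := near S (a := fun l => -ht a B l x) (a' := fun l => -ht a B l x)
          (b := -ht a B' j x) (b' := -ht a B' j x) (ε₁ := 0) (ε₂ := 0) (hs1 m q) (hs2 m q) hb1 hb2
          (fun l _ => by simp) (by simp)
        have h7 : s m q = -ht a B' j x := by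
          have := abs_nonpos_iff.mp (h6.trans (by norm_num))
          linarith
        have h8 : a i * (q * X / m) + b + s m q = -((a i - a j) * (θ j - x)) := by
          rw [h7]
          have h9 : ht a B' i x = a i * x + b := by
            unfold ht; rw [hB'def, Function.update_self]
          have h10 : ht a B' i x - ht a B' j x = -((a i - a j) * (θ j - x)) := by
            unfold ht at heq ⊢
            linear_combination -heq
          rw [← h10, h9, ← hx]
          ring
        change a i * (q * X / m) + b + s m q ∈ Set.uIcc (-(2 * u * (X / m))) 0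
        rw [h8]
        have h9 : 0 ≤ θ j - x := by linarith
        have h10 := abs_le.mp h5
        rcases lt_or_gt_of_ne hune with hneg | hpos
        · rw [Set.uIcc_of_ge (by nlinarith [div_nonneg hXpos.le hm0.le])]
          rw [abs_of_neg hneg] at h10
          have e1 : a i - a j ≤ 0 := by linarith [h10.1]
          have e2 : 2 * u ≤ a i - a j := by linarith [h10.2]
          constructor
          · nlinarith
          · have : -((a i - a j) * (θ j - x)) = (-(a i - a j)) * (θ j - x) := by ring
            rw [this]
            calc (-(a i - a j)) * (θ j - x) ≤ (-(2 * u)) * (X / m) := by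
                  apply mul_le_mul (by linarith) hxge h9 (by linarith)
              _ = _ := by ring
        · rw [Set.uIcc_of_le (by nlinarith [div_nonneg hXpos.le hm0.le])]
          rw [abs_of_pos hpos] at h10
          have e1 : 0 ≤ a i - a j := by linarith [h10.2]
          have e2 : a i - a j ≤ 2 * u := by linarith [h10.1]
          constructor
          · rw [neg_le_neg_iff]
            exact mul_le_mul e2 hxge h9 (by linarith)
          · nlinarith
    choose! ρ hρ1 hρ2 hρ3 using key
    have hρinj : Set.InjOn ρ T := by
      intro i hi i' hi' h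
      apply hm i hi i' hi'
      rw [← hρ2 i hi, ← hρ2 i' hi', h]
    calc (T.card : ℝ≥0∞) = ((T.image ρ).card : ℝ≥0∞) := by rw [card_image_of_injOn hρinj]
      _ = ∑ r ∈ T.image ρ, (A m r).indicator 1 b := by
          rw [sum_congr rfl (g := fun _ => (1 : ℝ≥0∞))]
          · simp
          · intro r hr
            obtain ⟨i, hi, rfl⟩ := mem_image.mp hr
            rw [Set.indicator_of_mem (hρ3 i hi)]
            rfl
      _ ≤ ∑ r ∈ range (m + 1), (A m r).indicator 1 b := by
          apply sum_le_sum_of_subset
          intro r hr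
          obtain ⟨i, hi, rfl⟩ := mem_image.mp hr
          exact hρ1 i hi
  have hlimD : Tendsto (fun m : ℕ => ENNReal.ofReal (4 * D * M + 4 * D * M / m)) atTop
      (𝓝 (ENNReal.ofReal (4 * D * M))) := by
    apply ENNReal.tendsto_ofReal
    have := (tendsto_const_div_atTop_nhds_zero_nat (4 * D * M)).const_add (4 * D * M)
    simpa using this
  calc ∫⁻ b, ({j | PosV a (Function.update B i b) k i j ∧ |a j - α| ≤ |a i - α|}.ncard : ℝ≥0∞) ∂ν
      ≤ ∫⁻ b, liminf (fun m => ∑ r ∈ range (m + 1), (A m r).indicator 1 b) atTop ∂ν :=
        lintegral_mono_ae hGle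
    _ ≤ liminf (fun m => ∫⁻ b, ∑ r ∈ range (m + 1), (A m r).indicator 1 b ∂ν) atTop :=
        lintegral_liminf_le (fun m => Finset.measurable_sum _
          (fun r _ => measurable_one.indicator (hAm m r)))
    _ ≤ liminf (fun m : ℕ => ENNReal.ofReal (4 * D * M + 4 * D * M / m)) atTop := by
        refine liminf_le_liminf ?_
        filter_upwards [eventually_ge_atTop 1] with m hm1
        have hm0 : (0 : ℝ) < m := by exact_mod_cast hm1
        rw [lintegral_finsetSum _ (fun r _ => measurable_one.indicator (hAm m r))]
        calc ∑ r ∈ range (m + 1), ∫⁻ b, (A m r).indicator 1 b ∂ν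
            ≤ ∑ _r ∈ range (m + 1), ENNReal.ofReal (4 * D * M / m) := by
              apply sum_le_sum
              intro r _
              rw [lintegral_indicator_one (hAm m r)]
              exact hAν m r
          _ = ENNReal.ofReal (4 * D * M + 4 * D * M / m) := by
              rw [sum_const, card_range, nsmul_eq_mul, ← ENNReal.ofReal_natCast,
                ← ENNReal.ofReal_mul (by positivity)]
              congr 1
              push_cast
              field_simp
    _ = _ := hlimD.liminf_eq

end Pool.Agent.H189R2.Lev
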